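import Mathlib
import Pool.Agent.T6.H53.EX.Grp
import Pool.Agent.T6.H53.EX.Op4
import Pool.Agent.T6.H53.EX.Op5
import Pool.Agent.T6.H53.EX.Op6
import Pool.Agent.T6.H53.EX.Op7

set_option autoImplicit false

/-!
# A Haagerup II₁ factor with an existential extension that has property (T)

`G` is a residually finite group with property (T) acting on a rooted tree and `S` is the subgroup
of its finitary elements, which is locally finite. Truncation at the level `n` is a homomorphism
`G → S`; the truncations are the identity in the limit on `S` and they separate the points of `G`.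
The factors are `N = L(S)` inside `M = L(G)`.
-/

open scoped InnerProductSpace ComplexOrder BoundedContinuousFunction
open Filter Topology MulOpposite

namespace Pool.Agent.Results.MP_02fda4_an.HaagerupInPropertyT

section defs

variable {H : Type} [NormedAddCommGroup H] [InnerProductSpace ℂ H] [CompleteSpace H]

/-- The type of the elements of a von Neumann algebra `N` acting on the Hilbert space `H`. -/
def Elt (N : VonNeumannAlgebra H) : Type := N.toStarSubalgebra

theorem isClosed_elt (N : VonNeumannAlgebra H) :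
    IsClosed ((N.toStarSubalgebra : StarSubalgebra ℂ (H →L[ℂ] H)) : Set (H →L[ℂ] H)) := by
  have h : ((N.toStarSubalgebra : StarSubalgebra ℂ (H →L[ℂ] H)) : Set (H →L[ℂ] H)) =
      Set.centralizer (Set.centralizer (N : Set (H →L[ℂ] H))) :=
    (VonNeumannAlgebra.centralizer_centralizer N).symm
  rw [h]
  exact Set.isClosed_centralizer _

/-- The elements of a von Neumann algebra form a C*-algebra: the algebraic operations and the norm
are those of the bounded operators on `H`. -/
noncomputable instance (N : VonNeumannAlgebra H) : CStarAlgebra (Elt N) :=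
  StarSubalgebra.cstarAlgebra (h_closed := isClosed_elt N) N.toStarSubalgebra

/-- An element of `N` as a bounded operator on `H`. -/
def Elt.op {N : VonNeumannAlgebra H} (x : Elt N) : H →L[ℂ] H := Subtype.val x

/-- `f` is an ultraweakly continuous (normal) functional on `N`: it is a countable sum of functionals
`x ↦ ⟨ξ_k, x η_k⟩` with square summable sequences of vectors. -/
def IsNormal (N : VonNeumannAlgebra H) (f : Elt N → ℂ) : Prop :=
  ∃ ξ η : ℕ → H, Summable (fun k => ‖ξ k‖ ^ 2) ∧ Summable (fun k => ‖η k‖ ^ 2) ∧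
    ∀ x : Elt N, f x = ∑' k, ⟪ξ k, x.op (η k)⟫_ℂ

/-- `f` is a positive normal functional on `N`: a countable sum of functionals `x ↦ ⟨ξ_k, x ξ_k⟩`
with a square summable sequence of vectors. -/
def IsNormalPositive (N : VonNeumannAlgebra H) (f : Elt N → ℂ) : Prop :=
  ∃ ξ : ℕ → H, Summable (fun k => ‖ξ k‖ ^ 2) ∧ ∀ x : Elt N, f x = ∑' k, ⟪ξ k, x.op (ξ k)⟫_ℂ

/-- `N` is a II₁ factor with trace `τ`: the center of `N` consists of the scalars, `N` is infinite
dimensional, and `τ` is a faithful normal tracial state of `N`. -/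
structure IsIIOneFactor (N : VonNeumannAlgebra H) (τ : Elt N → ℂ) : Prop where
  center : ∀ z : Elt N, (∀ x : Elt N, z * x = x * z) → ∃ c : ℂ, z = c • (1 : Elt N)
  infinite : ¬ FiniteDimensional ℂ (Elt N)
  one : τ 1 = 1
  tracial : ∀ x y, τ (x * y) = τ (y * x)
  faithful : ∀ x, τ (star x * x) = 0 → x = 0
  normal : IsNormalPositive N τ

/-- The 2-norm `‖x‖₂ = τ(x* x)^{1/2}`. -/
noncomputable def norm2 {A : Type} [CStarAlgebra A] (τ : A → ℂ) (x : A) : ℝ :=
  Real.sqrt (τ (star x * x)).re

/-- The maps of the Haagerup property of `(N, τ)`: `φ : N → N` is linear, unital, trace preserving,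
completely positive (the matrices `(φ(x_i* x_j))` are positive on the vectors `(y_j)` of `L²(N)`),
normal (`x ↦ τ(y φ(x))` is normal for all `y`), and it induces a compact operator on `L²(N)`: the
image of the unit ball of the 2-norm is totally bounded in the 2-norm. -/
structure IsCompactMarkov (N : VonNeumannAlgebra H) (τ : Elt N → ℂ) (φ : Elt N → Elt N) :
    Prop where
  add : ∀ x y, φ (x + y) = φ x + φ y
  smul : ∀ (c : ℂ) (x), φ (c • x) = c • φ x
  unital : φ 1 = 1
  trace : ∀ x, τ (φ x) = τ x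
  cp : ∀ (n : ℕ) (x y : Fin n → Elt N),
    0 ≤ ∑ i, ∑ j, τ (star (y i) * φ (star (x i) * x j) * y j)
  normal : ∀ y, IsNormal N fun x => τ (y * φ x)
  compact : ∀ ε : ℝ, 0 < ε → ∃ F : Finset (Elt N), ∀ x : Elt N, norm2 τ x ≤ 1 →
    ∃ y ∈ F, norm2 τ (φ x - y) < ε

/-- The Haagerup property of `(N, τ)`: the identity of `N` is the pointwise 2-norm limit of a net of
maps as above. -/
def HasHaagerup (N : VonNeumannAlgebra H) (τ : Elt N → ℂ) : Prop :=
  ∀ (F : Finset (Elt N)) (ε : ℝ), 0 < ε →
    ∃ φ : Elt N → Elt N, IsCompactMarkov N τ φ ∧ ∀ x ∈ F, norm2 τ (φ x - x) < ε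

/-- `π` is a unital normal action of the elements of `N` by bounded linear operators on the Hilbert
space `X` that respects the linear structure and the adjoints. -/
structure IsNormalAction {X : Type} [NormedAddCommGroup X] [InnerProductSpace ℂ X]
    (N : VonNeumannAlgebra H) (π : Elt N → X → X) : Prop where
  add : ∀ x y ξ, π (x + y) ξ = π x ξ + π y ξ
  smul : ∀ (c : ℂ) (x) (ξ), π (c • x) ξ = c • π x ξ
  one : ∀ ξ, π 1 ξ = ξ
  adjoint : ∀ x ξ η, ⟪π x ξ, η⟫_ℂ = ⟪ξ, π (star x) η⟫_ℂ
  map_add : ∀ x ξ η, π x (ξ + η) = π x ξ + π x η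
  map_smul : ∀ (x) (c : ℂ) (ξ), π x (c • ξ) = c • π x ξ
  bounded : ∀ x, ∃ C : ℝ, ∀ ξ, ‖π x ξ‖ ≤ C * ‖ξ‖
  normal : ∀ ξ, IsNormalPositive N fun x => ⟪ξ, π x ξ⟫_ℂ

/-- The Hilbert space `X` is a Hilbert `N`-`N` bimodule with `x ξ = l x ξ` and `ξ x = r x ξ`: the
left and the right action are normal and commute. -/
structure IsBimodule {X : Type} [NormedAddCommGroup X] [InnerProductSpace ℂ X]
    (N : VonNeumannAlgebra H) (l r : Elt N → X → X) : Prop where
  left : IsNormalAction N l
  right : IsNormalAction N r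
  left_mul : ∀ x y ξ, l (x * y) ξ = l x (l y ξ)
  right_mul : ∀ x y ξ, r (x * y) ξ = r y (r x ξ)
  comm : ∀ x y ξ, l x (r y ξ) = r y (l x ξ)

/-- Property (T) of `N` in the sense of Connes and Jones: for some finite set `F` and `δ > 0`,
every Hilbert bimodule with a unit vector `ξ` with `‖x ξ - ξ x‖ < δ` for `x` in `F` has a nonzero
central vector. -/
def HasPropertyT (N : VonNeumannAlgebra H) : Prop :=
  ∃ (F : Finset (Elt N)) (δ : ℝ), 0 < δ ∧
    ∀ (X : Type) [NormedAddCommGroup X] [InnerProductSpace ℂ X] [CompleteSpace X]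
      (l r : Elt N → X → X), IsBimodule N l r →
      (∃ ξ : X, ‖ξ‖ = 1 ∧ ∀ x ∈ F, ‖l x ξ - r x ξ‖ < δ) →
        ∃ η : X, η ≠ 0 ∧ ∀ x, l x η = r x η

/-- The sequence `x` is bounded in norm. -/
def Bdd {A : Type} [CStarAlgebra A] (x : ℕ → A) : Prop := ∃ C : ℝ, ∀ n, ‖x n‖ ≤ C

/-- `(Q, σ)` with the map `π` is the tracial ultrapower `A^U` of `(A, τ)`: restricted to the bounded
sequences in `A`, the map `π` is a unital star homomorphism onto `Q` whose kernel consists of the
sequences with `lim τ(x_n* x_n) = 0` along `U`, and `σ(π x)` is the limit of `τ(x_n)` along `U`. -/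
structure IsTracialUltrapower {A : Type} [CStarAlgebra A] (τ : A → ℂ) (U : Ultrafilter ℕ)
    {Q : Type} [Ring Q] [StarRing Q] [Algebra ℂ Q] (π : (ℕ → A) → Q) (σ : Q → ℂ) : Prop where
  one : π (fun _ => 1) = 1
  add : ∀ x y, Bdd x → Bdd y → π (fun n => x n + y n) = π x + π y
  mul : ∀ x y, Bdd x → Bdd y → π (fun n => x n * y n) = π x * π y
  smul : ∀ (c : ℂ) (x), Bdd x → π (fun n => c • x n) = c • π x
  map_star : ∀ x, Bdd x → π (fun n => star (x n)) = star (π x)
  surj : ∀ q, ∃ x, Bdd x ∧ π x = q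
  ker : ∀ x, Bdd x → (π x = 0 ↔ Tendsto (fun n => τ (star (x n) * x n)) U (𝓝 0))
  trace : ∀ x, Bdd x → Tendsto (fun n => τ (x n)) U (𝓝 (σ (π x)))

/-- `ι` is an embedding of `(A, τ)` into `(B, σ)`: a unital trace preserving star homomorphism. As
the traces are faithful and normal, such a map is injective and normal. -/
structure IsEmbedding {A : Type} [CStarAlgebra A] (τ : A → ℂ) {B : Type} [Ring B] [StarRing B]
    [Algebra ℂ B] (σ : B → ℂ) (ι : A → B) : Prop where
  one : ι 1 = 1
  add : ∀ x y, ι (x + y) = ι x + ι y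
  mul : ∀ x y, ι (x * y) = ι x * ι y
  smul : ∀ (c : ℂ) (x), ι (c • x) = c • ι x
  map_star : ∀ x, ι (star x) = star (ι x)
  trace : ∀ x, σ (ι x) = τ x

/-- The embedding `ι` of `(A, τ)` into `(B, σ)` is existential with respect to `U`: there is an
embedding `θ` of `B` into the tracial ultrapower `A^U` such that `θ ∘ ι` is the diagonal embedding
of `A`. -/
def IsExistential {A B : Type} [CStarAlgebra A] [CStarAlgebra B] (U : Ultrafilter ℕ) (τ : A → ℂ)
    (σ : B → ℂ) (ι : A → B) : Prop :=
  IsEmbedding τ σ ι ∧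
    ∃ (Q : Type) (_ : Ring Q) (_ : StarRing Q) (_ : Algebra ℂ Q) (π : (ℕ → A) → Q) (ρ : Q → ℂ),
      IsTracialUltrapower τ U π ρ ∧
      ∃ θ : B → Q, IsEmbedding σ ρ θ ∧ ∀ x, θ (ι x) = π fun _ => x

/-- The inclusion of `N` into a larger von Neumann algebra `M`. -/
def inclusion {N M : VonNeumannAlgebra H} (h : ∀ x, x ∈ N → x ∈ M) (x : Elt N) : Elt M :=
  ⟨x.op, h x.op x.2⟩

/-- The relative commutant of `N` in `M` consists of the scalars. -/
def IsIrreducible {N M : VonNeumannAlgebra H} (h : ∀ x, x ∈ N → x ∈ M) : Prop :=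
  ∀ z : Elt M, (∀ x : Elt N, z * inclusion h x = inclusion h x * z) → ∃ c : ℂ, z = c • (1 : Elt M)

end defs

section bridge

open Pool.Agent.Helper278 (LK lamK)
open Pool.Agent.Helper278.RG
open Pool.Agent.T6.H53.EX hiding trG

variable {G : Type} [Group G] {K : Type} [NormedAddCommGroup K] [InnerProductSpace ℂ K]
  [CompleteSpace K] (b : HilbertBasis G ℂ K) (S : Subgroup G)

/-- elements of the library type -/
private abbrev LE (N : VonNeumannAlgebra K) : Type := Pool.Agent.Helper278.Elt N

/-- the trace of the subalgebra -/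
noncomputable def tauN (x : Elt (NH b S)) : ℂ := trN b S (show LE (NH b S) from x)

/-- the trace of the large algebra -/
noncomputable def tauM (x : Elt (LK b)) : ℂ := Pool.Agent.Helper278.trG b (show LE (LK b) from x)

theorem norm2_M2 (x : Elt (NH b S)) : norm2 (tauN b S) x = M2 b S (show LE (NH b S) from x) :=
  n2_TN b S (show LE (NH b S) from x)

theorem isMarkov_EL (L : Subgroup S) [Fintype L] :
    IsCompactMarkov (NH b S) (tauN b S) (fun x => EL b S L (show LE (NH b S) from x)) where
  add x y := map_add (EL b S L) (show LE (NH b S) from x) (show LE (NH b S) from y)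
  smul c x := map_smul (EL b S L) c (show LE (NH b S) from x)
  unital := EL_one b S L
  trace x := EL_trace b S L (show LE (NH b S) from x)
  cp n x y := by
    have h := EL_cp b S L n (fun i => (show LE (NH b S) from x i))
      (fun i => (y i).op (b 1))
    refine h.trans (le_of_eq ?_)
    refine Finset.sum_congr rfl fun i _ => Finset.sum_congr rfl fun j _ => ?_
    show _ = ⟪b 1, (ContinuousLinearMap.adjoint (y i).op) _⟫_ℂ
    rw [ContinuousLinearMap.adjoint_inner_right]
    rfl
  normal y := by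
    obtain ⟨ξ, η, h1, h2, h3⟩ := EL_normal b S L (ContinuousLinearMap.adjoint y.op (b 1)) (b 1)
    refine ⟨ξ, η, h1, h2, fun x => ?_⟩
    refine Eq.trans ?_ (h3 (show LE (NH b S) from x))
    rw [ContinuousLinearMap.adjoint_inner_left]
    rfl
  compact ε hε := by
    obtain ⟨F, hF⟩ := EL_compact b S L ε hε
    refine ⟨F, fun x hx => ?_⟩
    rw [norm2_M2] at hx
    obtain ⟨y, hy, h⟩ := hF (show LE (NH b S) from x) hx
    refine ⟨y, hy, ?_⟩
    rw [norm2_M2]
    exact h

theorem hasHaagerup_NH (L : ℕ → Subgroup S) [∀ n, Fintype (L n)] (hmono : Monotone L)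
    (hun : ∀ s : S, ∃ n, s ∈ L n) : HasHaagerup (NH b S) (tauN b S) := by
  classical
  intro F ε hε
  have h := fun x : Elt (NH b S) => EL_approx b S L hmono hun (show LE (NH b S) from x) ε hε
  choose n hn using h
  refine ⟨fun x => EL b S (L (F.sup n)) (show LE (NH b S) from x), isMarkov_EL b S _,
    fun x hx => ?_⟩
  rw [norm2_M2]
  exact hn x _ (Finset.le_sup hx)

theorem hasPropertyT_LK
    (hT : ∃ F : Finset G, ∃ ε : ℝ, 0 < ε ∧
      ∀ (H : Type) [NormedAddCommGroup H] [InnerProductSpace ℂ H] [CompleteSpace H]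
        (ρ : G →* unitary (H →L[ℂ] H)),
        (∃ x : H, ‖x‖ = 1 ∧ ∀ s ∈ F, ‖(ρ s : H →L[ℂ] H) x - x‖ < ε) →
          ∃ x : H, x ≠ 0 ∧ ∀ g : G, (ρ g : H →L[ℂ] H) x = x) :
    HasPropertyT (LK b) := by
  obtain ⟨F, δ, hδ, h⟩ := propT_LK b hT
  refine ⟨F, δ, hδ, ?_⟩
  intro X _ _ _ l r hlr hξ
  choose Cl hCl using hlr.left.bounded
  choose Cr hCr using hlr.right.bounded
  let L0 : Elt (LK b) → X →L[ℂ] X := fun x =>
    LinearMap.mkContinuous
      { toFun := l x
        map_add' := hlr.left.map_add x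
        map_smul' := hlr.left.map_smul x } (Cl x) (hCl x)
  let R0 : Elt (LK b) → X →L[ℂ] X := fun x =>
    LinearMap.mkContinuous
      { toFun := r x
        map_add' := hlr.right.map_add x
        map_smul' := hlr.right.map_smul x } (Cr x) (hCr x)
  have hL0 : ∀ x ξ, L0 x ξ = l x ξ := fun _ _ => rfl
  have hR0 : ∀ x ξ, R0 x ξ = r x ξ := fun _ _ => rfl
  have lzero : ∀ ξ, l 0 ξ = 0 := by
    intro ξ
    have := hlr.left.smul 0 0 ξ
    rwa [zero_smul, zero_smul] at this
  have rzero : ∀ ξ, r 0 ξ = 0 := by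
    intro ξ
    have := hlr.right.smul 0 0 ξ
    rwa [zero_smul, zero_smul] at this
  have ladj : ∀ (x : Elt (LK b)) (ξ η : X), ⟪l (star x) ξ, η⟫_ℂ = ⟪ξ, l x η⟫_ℂ := by
    intro x ξ η
    have := hlr.left.adjoint (star x) ξ η
    rwa [star_star] at this
  have radj : ∀ (x : Elt (LK b)) (ξ η : X), ⟪r (star x) ξ, η⟫_ℂ = ⟪ξ, r x η⟫_ℂ := by
    intro x ξ η
    have := hlr.right.adjoint (star x) ξ η
    rwa [star_star] at this
  let l' : LE (LK b) →⋆ₐ[ℂ] (X →L[ℂ] X) :=
    { toFun := L0
      map_one' := by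
        ext ξ
        exact hlr.left.one ξ
      map_mul' := by
        intro x y
        ext ξ
        exact hlr.left_mul x y ξ
      map_zero' := by
        ext ξ
        exact lzero ξ
      map_add' := by
        intro x y
        ext ξ
        exact hlr.left.add x y ξ
      commutes' := by
        intro c
        ext ξ
        have h1 : l (c • (1 : Elt (LK b))) ξ = c • ξ := by
          rw [hlr.left.smul, hlr.left.one]
        have h2 : (algebraMap ℂ (X →L[ℂ] X) c) ξ = c • ξ := by
          rw [Algebra.algebraMap_eq_smul_one]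
          rfl
        rw [h2, ← h1]
        have h3 : algebraMap ℂ (LE (LK b)) c = c • (1 : LE (LK b)) :=
          Algebra.algebraMap_eq_smul_one c
        rw [h3]
        rfl
      map_star' := by
        intro x
        rw [ContinuousLinearMap.star_eq_adjoint]
        rw [ContinuousLinearMap.eq_adjoint_iff]
        intro ξ η
        exact ladj x ξ η }
  let r' : (LE (LK b))ᵐᵒᵖ →⋆ₐ[ℂ] (X →L[ℂ] X) :=
    { toFun := fun x => R0 (unop x)
      map_one' := by
        ext ξ
        exact hlr.right.one ξ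
      map_mul' := by
        intro x y
        ext ξ
        exact hlr.right_mul (unop y) (unop x) ξ
      map_zero' := by
        ext ξ
        exact rzero ξ
      map_add' := by
        intro x y
        ext ξ
        exact hlr.right.add (unop x) (unop y) ξ
      commutes' := by
        intro c
        ext ξ
        have h1 : r (c • (1 : Elt (LK b))) ξ = c • ξ := by
          rw [hlr.right.smul, hlr.right.one]
        have h2 : (algebraMap ℂ (X →L[ℂ] X) c) ξ = c • ξ := by
          rw [Algebra.algebraMap_eq_smul_one]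
          rfl
        rw [h2, ← h1]
        have h3 : algebraMap ℂ (LE (LK b))ᵐᵒᵖ c = op (c • (1 : LE (LK b))) := by
          rw [← Algebra.algebraMap_eq_smul_one c]
          rfl
        rw [h3]
        rfl
      map_star' := by
        intro x
        rw [ContinuousLinearMap.star_eq_adjoint]
        rw [ContinuousLinearMap.eq_adjoint_iff]
        intro ξ η
        exact radj (unop x) ξ η }
  obtain ⟨η, hη, h2⟩ := h X l' r' (by
      intro x y
      ext ξ
      exact hlr.comm x (unop y) ξ) (fun ζ => hlr.left.normal ζ) (fun ζ => hlr.right.normal ζ) hξ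
  exact ⟨η, hη, fun x => h2 x⟩

theorem isExistential_LK {T : ℕ → G →* S} {U : Ultrafilter ℕ} (hU : ∀ n, {n} ∉ U)
    (hT : Asy S T U) : IsExistential U (tauN b S) (tauM b) (inclusion (NH_le b S)) := by
  classical
  refine ⟨⟨rfl, fun _ _ => rfl, fun _ _ => rfl, fun _ _ => rfl, fun _ => rfl, fun _ => rfl⟩, ?_⟩
  obtain ⟨Q, i1, i2, i3, i4, π, ρ, hπ⟩ := Pool.Agent.Helper278.exists_ultrapower (TN b S) U
  obtain ⟨θ, hθ1, hθ2⟩ := exists_theta b S hU hT hπ
  let π' : (ℕ → Elt (NH b S)) → Q := fun x =>
    if h : Bdd x then π (bcf b S (fun n => (show LE (NH b S) from x n)) h) else 0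
  have hπ' : ∀ (x : ℕ → Elt (NH b S)) (h : Bdd x),
      π' x = π (bcf b S (fun n => (show LE (NH b S) from x n)) h) := fun x h => dif_pos h
  have key : ∀ (x : ℕ → Elt (NH b S)) (z : ℕ →ᵇ LE (NH b S)), (∀ n, x n = z n) →
      π' x = π z := by
    intro x z hz
    have hb : Bdd x := ⟨‖z‖, fun n => by
      rw [hz n]
      exact z.norm_coe_le_norm n⟩
    rw [hπ' x hb]
    congr 1
    ext1 n
    exact hz n
  refine ⟨Q, i1, i2, i3, π', ρ, ⟨?_, ?_, ?_, ?_, ?_, ?_, ?_, ?_⟩, ?_⟩
  · exact (key _ 1 fun n => rfl).trans (map_one π)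
  · intro x y hx hy
    rw [hπ' x hx, hπ' y hy, ← map_add]
    exact key _ _ fun n => rfl
  · intro x y hx hy
    rw [hπ' x hx, hπ' y hy, ← map_mul]
    exact key _ _ fun n => rfl
  · intro c x hx
    rw [hπ' x hx, ← map_smul]
    exact key _ _ fun n => rfl
  · intro x hx
    rw [hπ' x hx, ← map_star]
    exact key _ _ fun n => rfl
  · intro q
    obtain ⟨z, hz⟩ := hπ.surj q
    refine ⟨fun n => z n, ⟨‖z‖, fun n => z.norm_coe_le_norm n⟩, ?_⟩
    rw [← hz]
    exact key _ _ fun n => rfl
  · intro x hx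
    rw [hπ' x hx, hπ.ker]
    rfl
  · intro x hx
    rw [hπ' x hx]
    exact hπ.trace _
  · refine ⟨fun x => θ (show LE (LK b) from x), ⟨map_one θ,
      fun x y => map_add θ (show LE (LK b) from x) (show LE (LK b) from y),
      fun x y => map_mul θ (show LE (LK b) from x) (show LE (LK b) from y),
      fun c x => map_smul θ c (show LE (LK b) from x),
      fun x => map_star θ (show LE (LK b) from x), ?_⟩, ?_⟩
    · intro y
      exact hθ1 (show LE (LK b) from y)
    · intro x
      refine Eq.trans (hθ2 (show LE (NH b S) from x)) ?_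
      exact (key _ _ fun n => rfl).symm

end bridge

section final

open Pool.Agent.Helper278.TB

instance : Fact (Nat.Prime 257) := ⟨by norm_num⟩

theorem countable_G : Countable (G (ZMod 257)) := by
  let f : FreeGroup (Fin 14 × ZMod 257) →* Equiv.Perm (List (B (ZMod 257))) :=
    FreeGroup.lift fun p => ln p.1 p.2
  have h1 : G (ZMod 257) ≤ f.range := by
    unfold G
    rw [Subgroup.closure_le]
    rintro _ ⟨n, t, rfl⟩
    exact ⟨FreeGroup.of (n, t), by simp [f]⟩
  have h0 : Countable (FreeGroup (Fin 14 × ZMod 257)) := by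
    unfold FreeGroup
    infer_instance
  have h2 : Countable f.range := (MonoidHom.rangeRestrict_surjective f).countable
  exact (Subgroup.inclusion_injective h1).countable

theorem separable_of_basis {ι K : Type} [Countable ι] [NormedAddCommGroup K]
    [InnerProductSpace ℂ K] (b : HilbertBasis ι ℂ K) : TopologicalSpace.SeparableSpace K := by
  rw [← TopologicalSpace.isSeparable_univ_iff]
  have h1 : TopologicalSpace.IsSeparable (Set.range b) := (Set.countable_range b).isSeparable
  have h2 := (h1.span (R := ℂ)).closure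
  have h3 : closure (Submodule.span ℂ (Set.range b) : Set K) = Set.univ := by
    have := b.dense_span
    have h4 := congrArg (fun V : Submodule ℂ K => (V : Set K)) this
    exact h4
  rwa [h3] at h2

theorem exists_ne_one : ∃ g : G (ZMod 257), g ≠ 1 := by
  refine ⟨⟨R 0 none 1, Kg_le (R_mem_Kg 0 none (by simp) 1)⟩, fun h => ?_⟩
  have h1 : (R 0 none (1 : ZMod 257)) = 1 := congrArg Subtype.val h
  have h2 := congrArg (fun x : Equiv.Perm (List (B (ZMod 257))) => x [fun _ => 0]) h1
  have h3 : rho (elP 0 none (1 : ZMod 257)) [fun _ => 0] = [fun _ => 0] := by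
    rw [← R_eq]
    exact h2
  rw [rho_cons] at h3
  have h4 := congrFun (List.head_eq_of_cons_eq h3) 0
  have h5 : (elP 0 none (1 : ZMod 257)) (fun _ => 0) 0 = 1 := by
    show el 0 none (1 : ZMod 257) (fun _ => 0) 0 = 1
    simp [el, cf]
  rw [h5] at h4
  exact one_ne_zero h4

end final

/-- There are II₁ factors `N ⊂ M` on a separable Hilbert space such that `N` has the Haagerup
property, `M` has property (T), the relative commutant of `N` in `M` is trivial, and the inclusion
of `N` into `M` is existential with respect to every nonprincipal ultrafilter. -/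
theorem result :
    ∃ (H : Type) (_ : NormedAddCommGroup H) (_ : InnerProductSpace ℂ H) (_ : CompleteSpace H)
      (N M : VonNeumannAlgebra H) (τ : Elt N → ℂ) (σ : Elt M → ℂ) (h : ∀ x, x ∈ N → x ∈ M),
      TopologicalSpace.SeparableSpace H ∧ IsIIOneFactor N τ ∧ IsIIOneFactor M σ ∧
      HasHaagerup N τ ∧ HasPropertyT M ∧ IsIrreducible h ∧
      ∀ U : Ultrafilter ℕ, (∀ n, {n} ∉ U) → IsExistential U τ σ (inclusion h) := by
  classical
  let Γ := Pool.Agent.Helper278.TB.G (ZMod 257)
  let S : Subgroup Γ := Pool.Agent.T6.H53.EX.Hs (ZMod 257)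
  let L : ℕ → Subgroup S := Pool.Agent.T6.H53.EX.Lv (ZMod 257)
  have : Countable Γ := countable_G
  let b : HilbertBasis Γ ℂ (lp (fun _ : Γ => ℂ) 2) := default
  have hicc : ∀ g : Γ, g ≠ 1 → (Set.range fun h : S => (h : Γ) * g * (h : Γ)⁻¹).Infinite :=
    fun g hg => Pool.Agent.T6.H53.EX.icc_Hs g hg
  have hiccG : ∀ g : Γ, g ≠ 1 → (Set.range fun h : Γ => h * g * h⁻¹).Infinite := by
    intro g hg
    refine (hicc g hg).mono ?_
    rintro _ ⟨h, rfl⟩
    exact ⟨(h : Γ), rfl⟩
  obtain ⟨g₀, hg₀⟩ : ∃ g : Γ, g ≠ 1 := exists_ne_one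
  have hSinf : Infinite S := by
    by_contra hfin
    rw [not_infinite_iff_finite] at hfin
    exact hicc g₀ hg₀ (Set.finite_range _)
  have hGinf : Infinite Γ := by
    by_contra hfin
    rw [not_infinite_iff_finite] at hfin
    exact hiccG g₀ hg₀ (Set.finite_range _)
  have hN := Pool.Agent.T6.H53.EX.isIIOne_NH b S hicc
  have hM := Pool.Agent.Helper278.RG.isIIOne_LK b hiccG
  have hfinL : ∀ n, Fintype (L n) := fun n =>
    have := Pool.Agent.T6.H53.EX.Lv_finite (K := ZMod 257) n
    Fintype.ofFinite _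
  refine ⟨lp (fun _ : Γ => ℂ) 2, inferInstance, inferInstance, inferInstance,
    Pool.Agent.T6.H53.EX.NH b S, Pool.Agent.Helper278.LK b, tauN b S, tauM b,
    Pool.Agent.T6.H53.EX.NH_le b S, separable_of_basis b, ?_, ?_, ?_, ?_, ?_, ?_⟩
  · exact
      { center := fun z hz => by
          obtain ⟨c, hc⟩ := hN.center z.op z.2 (fun x hx => congrArg Elt.op (hz ⟨x, hx⟩))
          exact ⟨c, Subtype.ext hc⟩
        infinite := hN.infinite
        one := hN.trace.one
        tracial := hN.trace.tracial
        faithful := hN.trace.faithful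
        normal := hN.normal }
  · exact
      { center := fun z hz => by
          obtain ⟨c, hc⟩ := hM.center z.op z.2 (fun x hx => congrArg Elt.op (hz ⟨x, hx⟩))
          exact ⟨c, Subtype.ext hc⟩
        infinite := hM.infinite
        one := hM.trace.one
        tracial := hM.trace.tracial
        faithful := hM.trace.faithful
        normal := hM.normal }
  · exact hasHaagerup_NH b S L Pool.Agent.T6.H53.EX.Lv_mono Pool.Agent.T6.H53.EX.Lv_union
  · refine hasPropertyT_LK b ?_
    exact Pool.Agent.Helper278.TB.propT_G (K := ZMod 257) (by rw [ZMod.card]; norm_num)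
      Pool.Agent.Helper278.TB.ln_add Pool.Agent.Helper278.TB.pair_all
  · intro z hz
    obtain ⟨c, hc⟩ := Pool.Agent.T6.H53.EX.comm_scalar b S hicc z.op z.2 (fun h =>
      congrArg Elt.op (hz ⟨_, Pool.Agent.T6.H53.EX.lamK_memN b S h⟩))
    exact ⟨c, Subtype.ext hc⟩
  · intro U hU
    refine isExistential_LK b S (T := fun n => Pool.Agent.T6.H53.EX.tr n) hU ?_
    have hle : (U : Filter ℕ) ≤ atTop := by
      rw [← Nat.cofinite_eq_atTop]
      intro s hs
      rw [Filter.mem_cofinite] at hs
      by_contra hns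
      have h1 : sᶜ ∈ U := Ultrafilter.compl_mem_iff_notMem.2 hns
      have h2 := (Ultrafilter.finite_biUnion_mem_iff hs (s := fun n => {n})).1 (by
        rw [Set.biUnion_of_singleton]
        exact h1)
      obtain ⟨n, _, hn⟩ := h2
      exact hU n hn
    refine ⟨fun g hg => ?_, fun h => ?_⟩
    · obtain ⟨n₀, hn₀⟩ := Pool.Agent.T6.H53.EX.tr_ne_one g hg
      exact hle (Filter.mem_atTop_sets.2 ⟨n₀, hn₀⟩)
    · obtain ⟨n₀, hn₀⟩ := Pool.Agent.T6.H53.EX.tr_self h
      exact hle (Filter.mem_atTop_sets.2 ⟨n₀, hn₀⟩)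

end Pool.Agent.Results.MP_02fda4_an.HaagerupInPropertyT
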